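import Pool.Agent.L5helper98.CG.Defs

/-!
ADD: adding a nonnegative constant to the covariance of a Gaussian vector.
-/

set_option autoImplicit false

open MeasureTheory ProbabilityTheory Filter Topology Set Matrix
open scoped ENNReal RealInnerProductSpace

namespace Pool.Agent.L5helper17.CG

open Pool.Agent.L5helper98.CG

/-- the vector of ones -/
noncomputable def ee (n : ℕ) : EuclideanSpace ℝ (Fin n) := WithLp.toLp 2 (fun _ => (1 : ℝ))

lemma ee_apply (n : ℕ) (i : Fin n) : ee n i = 1 := rfl

lemma inner_ee (n : ℕ) (t : EuclideanSpace ℝ (Fin n)) : ⟪ee n, t⟫ = ∑ i, t i := by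
  rw [PiLp.inner_apply]
  refine Finset.sum_congr rfl fun i _ => ?_
  rw [ee_apply]
  simp

/-- the constant added to all the entries -/
def addM {n : ℕ} (C : Matrix (Fin n) (Fin n) ℝ) (b : ℝ) : Matrix (Fin n) (Fin n) ℝ :=
  Matrix.of fun i j => C i j + b

lemma addM_apply {n : ℕ} (C : Matrix (Fin n) (Fin n) ℝ) (b : ℝ) (i j : Fin n) :
    addM C b i j = C i j + b := rfl

lemma psd_add {n : ℕ} {C : Matrix (Fin n) (Fin n) ℝ} (hC : C.PosSemidef) {b : ℝ} (hb : 0 ≤ b) :
    (addM C b).PosSemidef := by
  have h1 := Matrix.posSemidef_vecMulVec_self_star (R := ℝ) (fun _ : Fin n => √b)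
  have h2 := hC.add h1
  have e : addM C b = C + vecMulVec (fun _ : Fin n => √b) (star fun _ : Fin n => √b) := by
    ext i j
    rw [addM_apply, Matrix.add_apply, Matrix.vecMulVec_apply]
    simp only [Pi.star_apply, star_trivial]
    rw [Real.mul_self_sqrt hb]
  rw [e]
  exact h2

lemma law_add {n : ℕ} {C : Matrix (Fin n) (Fin n) ℝ} (hC : C.PosSemidef) {b : ℝ} (hb : 0 ≤ b) :
    ((multivariateGaussian 0 C).prod (gaussianReal 0 1)).map
      (fun p : EuclideanSpace ℝ (Fin n) × ℝ => p.1 + (√b * p.2) • ee n) =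
    multivariateGaussian 0 (addM C b) := by
  have hf : Measurable (fun g : ℝ => (√b * g) • ee n) := by fun_prop
  have e1 : ((multivariateGaussian 0 C).prod (gaussianReal 0 1)).map
      (fun p : EuclideanSpace ℝ (Fin n) × ℝ => p.1 + (√b * p.2) • ee n) =
      ((multivariateGaussian 0 C).prod ((gaussianReal 0 1).map (fun g : ℝ => (√b * g) • ee n))).map
        (fun p => p.1 + p.2) := by
    conv_rhs => rw [← Measure.map_id (μ := multivariateGaussian 0 C)]
    rw [Measure.map_prod_map _ _ measurable_id hf, Measure.map_map (by fun_prop) (by fun_prop)]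
    rfl
  have hprob : IsProbabilityMeasure ((gaussianReal 0 1).map (fun g : ℝ => (√b * g) • ee n)) :=
    Measure.isProbabilityMeasure_map hf.aemeasurable
  rw [e1]
  apply Measure.ext_of_charFun
  rw [charFun_map_add_prod_eq_mul]
  ext t
  rw [Pi.mul_apply, charFun_multivariateGaussian hC, charFun_multivariateGaussian (psd_add hC hb)]
  have e2 : charFun ((gaussianReal 0 1).map (fun g : ℝ => (√b * g) • ee n)) t =
      Complex.exp (-((b * (∑ i, t i) ^ 2 : ℝ) : ℂ) / 2) := by
    have e3 : charFun ((gaussianReal 0 1).map (fun g : ℝ => (√b * g) • ee n)) t =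
        charFun (gaussianReal 0 1) (√b * ∑ i, t i) := by
      rw [charFun_apply, charFun_apply_real, integral_map hf.aemeasurable (by fun_prop)]
      refine integral_congr_ae (Filter.Eventually.of_forall fun g => ?_)
      show Complex.exp (((⟪(√b * g) • ee n, t⟫ : ℝ) : ℂ) * Complex.I) = _
      rw [real_inner_smul_left, inner_ee]
      congr 1
      push_cast
      ring
    rw [e3, charFun_gaussianReal]
    congr 1
    have hs : ((√b : ℝ) : ℂ) ^ 2 = (b : ℂ) := by
      rw [← Complex.ofReal_pow, Real.sq_sqrt hb]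
    push_cast
    rw [mul_pow, hs]
    ring
  have e4 : (t : Fin n → ℝ) ⬝ᵥ (addM C b) *ᵥ t = t ⬝ᵥ C *ᵥ t + b * (∑ i, t i) ^ 2 := by
    simp only [dotProduct, mulVec, addM_apply]
    rw [sq, Finset.sum_mul_sum]
    simp only [Finset.mul_sum, ← Finset.sum_add_distrib]
    refine Finset.sum_congr rfl fun i _ => Finset.sum_congr rfl fun j _ => ?_
    ring
  rw [e2, ← Complex.exp_add, e4]
  congr 1
  push_cast
  ring

theorem ADD_holds : St_ADD := by
  intro n C hC b hb p hp q
  have hmeas : ∀ D : Matrix (Fin n) (Fin n) ℝ, Measurable (fun x : EuclideanSpace ℝ (Fin n) =>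
      ENNReal.ofReal ((∑ i, p i * Real.exp (x i - D i i / 2)) ^ q)) := by
    intro D
    refine ENNReal.measurable_ofReal.comp ?_
    refine Measurable.pow_const ?_ q
    fun_prop
  change gm (addM C b) p q = _
  unfold gm
  rw [← law_add hC hb, lintegral_map (hmeas (addM C b)) (by fun_prop)]
  have key : ∀ z : EuclideanSpace ℝ (Fin n) × ℝ,
      ENNReal.ofReal ((∑ i, p i * Real.exp ((z.1 + (√b * z.2) • ee n) i - addM C b i i / 2)) ^ q) =
      ENNReal.ofReal ((∑ i, p i * Real.exp (z.1 i - C i i / 2)) ^ q) *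
        ENNReal.ofReal (Real.exp (q * (√b * z.2 - b / 2))) := by
    intro z
    have hS : 0 ≤ ∑ i, p i * Real.exp (z.1 i - C i i / 2) :=
      Finset.sum_nonneg fun i _ => mul_nonneg (hp i) (Real.exp_pos _).le
    have h1 : ∑ i, p i * Real.exp ((z.1 + (√b * z.2) • ee n) i - addM C b i i / 2) =
        Real.exp (√b * z.2 - b / 2) * ∑ i, p i * Real.exp (z.1 i - C i i / 2) := by
      rw [Finset.mul_sum]
      refine Finset.sum_congr rfl fun i _ => ?_
      have h2 : (z.1 + (√b * z.2) • ee n) i = z.1 i + √b * z.2 := by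
        rw [PiLp.add_apply, PiLp.smul_apply, ee_apply, smul_eq_mul, mul_one]
      rw [h2, addM_apply, show z.1 i + √b * z.2 - (C i i + b) / 2 =
        (√b * z.2 - b / 2) + (z.1 i - C i i / 2) by ring, Real.exp_add]
      ring
    rw [h1, Real.mul_rpow (Real.exp_pos _).le hS, ← Real.exp_mul, mul_comm,
      ENNReal.ofReal_mul (Real.rpow_nonneg hS q), mul_comm q]
  have hprod := lintegral_prod_mul (μ := multivariateGaussian 0 C) (ν := gaussianReal 0 1)
    (g := fun g : ℝ => ENNReal.ofReal (Real.exp (q * (√b * g - b / 2))))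
    (hmeas C).aemeasurable (by fun_prop)
  rw [lintegral_congr key]
  refine hprod.trans ?_
  rw [mul_comm]
  congr 1
  have hint : Integrable (fun g : ℝ => Real.exp (q * (√b * g - b / 2))) (gaussianReal 0 1) := by
    have h1 := (integrable_exp_mul_gaussianReal (μ := 0) (v := 1) (q * √b)).mul_const
      (Real.exp (-(q * (b / 2))))
    refine h1.congr (Filter.Eventually.of_forall fun g => ?_)
    show Real.exp (q * √b * g) * Real.exp (-(q * (b / 2))) = _
    rw [← Real.exp_add]
    congr 1
    ring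
  rw [← ofReal_integral_eq_lintegral_ofReal hint
    (Filter.Eventually.of_forall fun g => (Real.exp_pos _).le)]
  congr 1
  have h3 : ∫ g : ℝ, Real.exp (q * (√b * g - b / 2)) ∂(gaussianReal 0 1) =
      Real.exp (-(q * (b / 2))) * ∫ g : ℝ, Real.exp ((q * √b) * g) ∂(gaussianReal 0 1) := by
    rw [← integral_const_mul]
    refine integral_congr_ae (Filter.Eventually.of_forall fun g => ?_)
    show Real.exp (q * (√b * g - b / 2)) = Real.exp (-(q * (b / 2))) * Real.exp (q * √b * g)
    rw [← Real.exp_add]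
    congr 1
    ring
  have h4 : ∫ g : ℝ, Real.exp ((q * √b) * g) ∂(gaussianReal 0 1) =
      Real.exp ((q * √b) ^ 2 / 2) := by
    have h5 := congrFun (mgf_fun_id_gaussianReal (μ := 0) (v := 1)) (q * √b)
    rw [mgf] at h5
    rw [h5]
    congr 1
    push_cast
    ring
  rw [h3, h4, ← Real.exp_add]
  congr 1
  rw [mul_pow, Real.sq_sqrt hb]
  ring

end Pool.Agent.L5helper17.CG
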